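import Pool.Agent.H273R2.Skew.T3a

/-!
Task T3, second part: the matrices are square; the normalised permanents as nested eliminations
(helper273 for helper618).
-/

namespace Pool.Agent.H618R2.Skew

open MvPolynomial Finset Pool.Agent.H549R2.Convex

theorem t3_degL_le (A : List (List Bool)) (j : ℕ) : degL A j ≤ A.length := by
  unfold degL
  refine (List.length_filter_le _ _).trans ?_
  rw [List.length_range]

theorem t3_dL_le {A : List (List Bool)} (hn : 0 < A.length) (v : ℕ) : dL A v ≤ A.length := by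
  unfold dL
  have := t3_degL_le A (v - A.length)
  split_ifs <;> omega

theorem t3_nK_le (A : List (List Bool)) : nK A ≤ nB A := by
  unfold nK nB
  exact List.length_filter_le _ _

theorem t3_nC_le {A : List (List Bool)} {M : ℕ} (hM : 1 ≤ M) : nC A ≤ nC A * M :=
  Nat.le_mul_of_pos_right _ hM

theorem t3_mainA_le {A : List (List Bool)} {D M : ℕ} (hn : 0 < A.length) (hD2 : D ≤ nK A + 1)
    (hM : 1 ≤ M) (u : ℕ) : mainA A D u ≤ nC A * M := by
  refine le_trans ?_ (t3_nC_le hM)
  have h1 := t3_nK_le A
  have h2 : nC A = nB A + A.length + 3 := rfl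
  unfold mainA am
  have h3 := t3_dL_le hn (u % wd A - 1)
  split_ifs <;> omega

theorem t3_colM_le {A : List (List Bool)} {D M : ℕ} (hD2 : D ≤ nK A + 1)
    (hM : 1 ≤ M) (u : ℕ) : colM A D u ≤ nC A * M := by
  refine le_trans ?_ (t3_nC_le hM)
  have h1 := t3_nK_le A
  have h2 : nC A = nB A + A.length + 3 := rfl
  unfold colM bm
  split_ifs <;> omega

theorem t3_sum_grid (W : ℕ) (hW : 0 < W) (f : ℕ → ℕ → ℤ) (T : ℕ) :
    ∑ u ∈ range (T * W), f (u / W) (u % W) = ∑ t ∈ range T, ∑ i ∈ range W, f t i := by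
  induction T with
  | zero => simp
  | succ T ih =>
    rw [Nat.succ_mul, Finset.sum_range_add, ih, Finset.sum_range_succ]
    congr 1
    refine Finset.sum_congr rfl fun i hi => ?_
    rw [mem_range] at hi
    have h1 : (T * W + i) / W = T := by
      rw [mul_comm, Nat.mul_add_div hW, Nat.div_eq_of_lt hi, add_zero]
    have h2 : (T * W + i) % W = i := by
      rw [mul_comm, Nat.mul_add_mod, Nat.mod_eq_of_lt hi]
    rw [h1, h2]

theorem t3_sum_range_list (g : ℕ → ℤ) (n : ℕ) : ((List.range n).map g).sum = ∑ i ∈ range n, g i := by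
  induction n with
  | zero => simp
  | succ n ih =>
    rw [List.range_succ, List.map_append, List.sum_append, ih, Finset.sum_range_succ]
    simp

theorem t3_sum_flatMap {α β : Type*} (l : List α) (f : α → List β) (g : β → ℤ) :
    ((l.flatMap f).map g).sum = (l.map fun a => ((f a).map g).sum).sum := by
  induction l with
  | nil => simp
  | cons a l ih => simp [ih]

/-- contribution of a block -/
def t3_val (D : ℕ) (b : Blk) : ℤ :=
  (if b.2.2 = false then (D : ℤ) - 1 else 0) + 1 - (if b.2.1 = false then (D : ℤ) else 0)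

theorem t3_val_edge (D : ℕ) (e : ℕ × ℕ) (h : e.1 < e.2) :
    ((edgeBlocks e).map (t3_val D)).sum = 1 := by
  unfold edgeBlocks
  obtain ⟨k, hk⟩ : ∃ k, e.2 = e.1 + 1 + k := ⟨e.2 - e.1 - 1, by omega⟩
  have h1 : e.2 - e.1 = k + 1 := by omega
  rw [h1, List.map_map, t3_sum_range_list]
  have h2 : ∀ s, (t3_val D ∘ fun s => (e.1 + 1 + s, decide (s = 0), decide (e.1 + 1 + s = e.2))) s =
      (if s = k then 0 else (D : ℤ) - 1) + 1 - (if s = 0 then 0 else (D : ℤ)) := by
    intro s
    simp only [Function.comp, t3_val, decide_eq_false_iff_not]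
    have : (e.1 + 1 + s = e.2) ↔ s = k := by omega
    simp only [this]
    by_cases hs : s = k <;> by_cases hs0 : s = 0 <;> simp [hs, hs0]
  rw [Finset.sum_congr rfl (fun s _ => h2 s), Finset.sum_sub_distrib, Finset.sum_add_distrib]
  have h3 : ∑ s ∈ range (k + 1), (if s = k then 0 else (D : ℤ) - 1) = k * ((D : ℤ) - 1) := by
    rw [Finset.sum_range_succ, if_pos rfl, add_zero]
    rw [Finset.sum_congr rfl (g := fun _ => (D : ℤ) - 1)]
    · rw [Finset.sum_const, Finset.card_range, nsmul_eq_mul]
    · intro s hs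
      rw [mem_range] at hs
      rw [if_neg (by omega)]
  have h4 : ∑ s ∈ range (k + 1), (if s = 0 then 0 else (D : ℤ)) = k * (D : ℤ) := by
    rw [Finset.sum_range_succ', if_pos rfl, add_zero]
    rw [Finset.sum_congr rfl (g := fun _ => (D : ℤ))]
    · simp
    · intro s _
      rw [if_neg (by omega)]
  rw [h3, h4]
  simp
  ring

theorem t3_val_blocks (A : List (List Bool)) (D : ℕ) :
    ((blocks A).map (t3_val D)).sum = (edgesE A).length := by
  unfold blocks
  rw [t3_sum_flatMap]
  have h1 : ∀ l : List (ℕ × ℕ), (∀ e ∈ l, e.1 < e.2) →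
      (l.map fun e => ((edgeBlocks e).map (t3_val D)).sum).sum = (l.length : ℤ) := by
    intro l
    induction l with
    | nil => simp
    | cons a l ih =>
      intro h
      rw [List.map_cons, List.sum_cons, t3_val_edge D a (h a (by simp)),
        ih (fun e he => h e (by simp [he])), List.length_cons]
      push_cast
      ring
  refine h1 _ fun e he => ?_
  have := t3_mem_edgesE he
  omega

/-- rows minus columns at the position `i` of the block `t` -/
def t3_g (A : List (List Bool)) (D t i : ℕ) : ℤ :=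
  (if (blk A t).2.2 = false ∧ i = (blk A t).1 + 1 then (D : ℤ) else 0) + (bm D (blk A t) i : ℤ) -
    ((if t < nB A then am D (blk A t) i else if i = 0 then 1 else dL A (i - 1) + 1 : ℕ) : ℤ) -
    (bp D (blk A t) i : ℤ)

theorem t3_g_block (A : List (List Bool)) (D t : ℕ) (ht : t < nB A) :
    ∑ i ∈ range (wd A), t3_g A D t i = t3_val D (blk A t) := by
  have hb := t3_mem_blocks (t3_blk_mem ht)
  unfold t3_g
  simp only [if_pos ht]
  generalize blk A t = b at hb
  obtain ⟨p, fst, lst⟩ := b
  simp only at hb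
  have h1 : ∀ i, ((if lst = false ∧ i = p + 1 then (D : ℤ) else 0) +
      ((bm D (p, fst, lst) i : ℕ) : ℤ) - ((am D (p, fst, lst) i : ℕ) : ℤ) -
      ((bp D (p, fst, lst) i : ℕ) : ℤ)) =
      (if i = p + 1 then (if lst = false then (D : ℤ) - 1 else 0) else 0) +
        (if i = p - 1 then (1 - (if fst = false then (D : ℤ) else 0)) else 0) := by
    intro i
    unfold bm am bp
    have e1 : (i + 1 = p) ↔ (i = p - 1) := by omega
    simp only [e1]
    by_cases q1 : i = p + 1
    · have q2 : ¬ i = p - 1 := by omega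
      have q3 : ¬ i = p := by omega
      have q4 : ¬ (p + 1 = p - 1) := by omega
      have q5 : ¬ (p + 1 = p) := by omega
      subst q1
      cases lst <;> cases fst <;> simp [q4] <;> ring
    · by_cases q2 : i = p - 1
      · have q3 : ¬ i = p := by omega
        have q4 : ¬ (p - 1 = p + 1) := by omega
        have q5 : ¬ (p - 1 = p) := by omega
        subst q2
        cases lst <;> cases fst <;> simp [q4, q5]
      · by_cases q3 : i = p
        · subst q3
          have q4 : ¬ (i = i - 1) := by omega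
          cases lst <;> cases fst <;> simp [q4]
        · cases lst <;> cases fst <;> simp [q1, q2, q3]
  have s1 : ∀ (X : ℤ) (q : ℕ), q < wd A → ∑ i ∈ range (wd A), (if i = q then X else 0) = X := by
    intro X q hq
    rw [Finset.sum_ite_eq', if_pos (mem_range.mpr hq)]
  rw [Finset.sum_congr rfl (fun i _ => h1 i), Finset.sum_add_distrib, s1 _ _ hb.2,
    s1 _ _ (by omega)]
  unfold t3_val
  simp only
  ring

theorem t3_g_final (A : List (List Bool)) (D : ℕ) :
    ∑ i ∈ range (wd A), t3_g A D (nB A) i = -∑ v ∈ range (2 * A.length), (dL A v : ℤ) := by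
  have h1 : ∀ i, t3_g A D (nB A) i = if i = 0 then 0 else -(dL A (i - 1) : ℤ) := by
    intro i
    unfold t3_g
    rw [t3_blk_final le_rfl]
    unfold bm bp
    by_cases hi : i = 0
    · subst hi; simp
    · simp [hi]
  rw [Finset.sum_congr rfl (fun i _ => h1 i)]
  unfold wd
  rw [Finset.sum_range_succ', if_pos rfl, add_zero, ← Finset.sum_neg_distrib]
  refine Finset.sum_congr rfl fun i _ => ?_
  rw [if_neg (by omega), Nat.add_sub_cancel]

theorem t3_edges_length (A : List (List Bool)) : (edgesE A).length = (SA A).card := by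
  rw [← edges_length]
  unfold edgesE edgesL
  rw [length_flatMap_range, length_flatMap_range]
  refine Finset.sum_congr rfl fun i _ => ?_
  rw [List.length_map, List.length_map]

theorem t3_sum_dL (A : List (List Bool)) (hdeg : ∀ j < A.length, 1 ≤ degL A j) :
    ∑ v ∈ range (2 * A.length), dL A v = (SA A).card := by
  rw [← sum_dS (SA A) (fun j => by rw [← degL_eq]; exact hdeg _ j.2), Finset.sum_range]
  exact Finset.sum_congr rfl fun v _ => dL_eq A v.val v.2

theorem t3_balance (A : List (List Bool)) (D : ℕ) (hdeg : ∀ j < A.length, 1 ≤ degL A j) :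
    ∑ u ∈ range (nG A), t3_g A D (u / wd A) (u % wd A) = 0 := by
  unfold nG
  rw [t3_sum_grid (wd A) (t3_wd_pos A) (t3_g A D), Finset.sum_range_succ, t3_g_final]
  rw [Finset.sum_congr rfl (fun t ht => t3_g_block A D t (mem_range.mp ht))]
  have h1 : ∑ t ∈ range (nB A), t3_val D (blk A t) = ((blocks A).map (t3_val D)).sum := by
    rw [Finset.sum_range]
    exact sum_getD (blocks A) (nB A) rfl (t3_val D) (0, true, true)
  rw [h1, t3_val_blocks, t3_edges_length, ← t3_sum_dL A hdeg]
  push_cast
  ring

theorem t3_rows_length (A : List (List Bool)) (D M : ℕ) :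
    (rowsS A D M).length = ∑ u ∈ range (nG A), ((tg A D M u).map Prod.snd).sum := by
  unfold rowsS
  rw [length_flatMap_range]
  refine Finset.sum_congr rfl fun u _ => ?_
  rw [List.length_flatMap]
  simp

theorem t3_cols_length (A : List (List Bool)) (D M : ℕ) :
    (colsS A D M).length = ∑ u ∈ range (nG A), mc A D M u := by
  unfold colsS
  rw [length_flatMap_range]
  refine Finset.sum_congr rfl fun u _ => ?_
  simp

/-- T3a: the matrices are square -/
theorem lengths_eq (A : List (List Bool)) (D M : ℕ) (hn : 0 < A.length)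
    (hdeg : ∀ j < A.length, 1 ≤ degL A j) (hD1 : 1 ≤ D) (hD2 : D ≤ nK A + 1) (hM : 1 ≤ M) :
    (rowsS A D M).length = (colsS A D M).length := by
  have h0 := t3_balance A D hdeg
  have h1 : ((rowsS A D M).length : ℤ) - ((colsS A D M).length : ℤ) =
      ∑ u ∈ range (nG A), t3_g A D (u / wd A) (u % wd A) := by
    rw [t3_rows_length, t3_cols_length, Nat.cast_sum, Nat.cast_sum, ← Finset.sum_sub_distrib]
    refine Finset.sum_congr rfl fun u _ => ?_
    have a1 := t3_mainA_le (M := M) hn hD2 hM u
    have a2 := t3_colM_le (M := M) hD2 hM u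
    have e0 : ((tg A D M u).map Prod.snd).sum = (nC A * M - mainA A D u) +
        ((exL A D u).map Prod.snd).sum := by
      unfold tg
      rw [List.map_cons, List.sum_cons]
    rw [e0]
    unfold mc
    rw [Nat.cast_sub (by omega : colM A D u ≤ nC A * M + colP A D u), Nat.cast_add, Nat.cast_add,
      Nat.cast_mul]
    have e1 : (((nC A * M - mainA A D u : ℕ)) : ℤ) = (nC A : ℤ) * M - mainA A D u := by
      rw [Nat.cast_sub a1]; push_cast; ring
    have e2 : ((((exL A D u).map Prod.snd).sum : ℕ) : ℤ) =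
        (if (blk A (u / wd A)).2.2 = false ∧ u % wd A = (blk A (u / wd A)).1 + 1 then (D : ℤ) else 0) := by
      unfold exL
      split_ifs <;> simp
    unfold t3_g
    rw [e1]
    have e3 : (mainA A D u : ℤ) = ((if u / wd A < nB A then am D (blk A (u / wd A)) (u % wd A) else
        if u % wd A = 0 then 1 else dL A (u % wd A - 1) + 1 : ℕ) : ℤ) := rfl
    have e4 : (colP A D u : ℤ) = (bp D (blk A (u / wd A)) (u % wd A) : ℤ) := rfl
    have e5 : (colM A D u : ℤ) = (bm D (blk A (u / wd A)) (u % wd A) : ℤ) := rfl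
    rw [e4, e5, ← e2]
    rw [e3]
    ring
  rw [h0] at h1
  omega

/-! ## T3b -/

/-- the statement `genA` (task T1) -/
def GenA : Prop := ∀ (G : ℕ) (tg : ℕ → List (ℕ × ℕ)) (m : ℕ → ℕ)
    (_htg : ∀ u < G, ∀ q ∈ tg u, u < q.1 ∧ q.1 ≤ G),
    coeff (∑ u ∈ range G, Finsupp.single u (m u))
        (∏ u ∈ range G, ((tg u).map fun q => (∑ κ ∈ Ico u q.1, (X κ : MP)) ^ q.2).prod) =
      (∏ u ∈ range G, (-1 : ℚ) ^ (m u + ((tg u).map Prod.snd).sum)) *
        constantCoeff (run (fun u => (u + 1, -(m u : ℤ) - 1) :: (tg u).map fun q => (q.1, (q.2 : ℤ)))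
          0 G 1)

theorem t3_cols_sum (A : List (List Bool)) (D M : ℕ) :
    ((colsS A D M).map (fun κ => (Finsupp.single κ 1 : ℕ →₀ ℕ))).sum =
      ∑ u ∈ range (nG A), Finsupp.single u (mc A D M u) := by
  unfold colsS
  rw [sum_flatMap_range]
  refine Finset.sum_congr rfl fun u _ => ?_
  rw [List.map_map, sum_const_range _ ((fun κ => (Finsupp.single κ 1 : ℕ →₀ ℕ)) ∘ fun _ => u)
      (Finsupp.single u 1) (fun _ => rfl)]
  simp

theorem t3_count (A : List (List Bool)) (D M κ : ℕ) :
    (colsS A D M).count κ = if κ < nG A then mc A D M κ else 0 := by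
  rw [count_eq_sum, t3_cols_sum, Finsupp.finsetSum_apply]
  simp only [Finsupp.single_apply]
  rw [Finset.sum_ite_eq']
  simp only [mem_range]

theorem t3_factorials (A : List (List Bool)) (D M : ℕ) :
    ∏ κ ∈ (colsS A D M).toFinset, (((colsS A D M).count κ).factorial : ℤ) = DS A D M := by
  have h2 : ∏ κ ∈ (colsS A D M).toFinset, (((colsS A D M).count κ).factorial : ℤ) =
      ∏ κ ∈ range (nG A), (((colsS A D M).count κ).factorial : ℤ) := by
    refine Finset.prod_subset ?_ ?_
    · intro κ hκ
      rw [List.mem_toFinset] at hκ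
      rw [mem_range]
      by_contra hc
      have h3 := t3_count A D M κ
      rw [if_neg hc, List.count_eq_zero] at h3
      exact h3 hκ
    · intro κ _ hκ
      rw [List.mem_toFinset] at hκ
      rw [List.count_eq_zero_of_not_mem hκ]
      simp
  rw [h2, DS, prod_range_list]
  push_cast
  refine Finset.prod_congr rfl fun κ hκ => ?_
  rw [t3_count, if_pos (mem_range.mp hκ)]

theorem t3_DS_pos (A : List (List Bool)) (D M : ℕ) : 0 < DS A D M := by
  rw [DS, prod_range_list]
  exact Finset.prod_pos fun v _ => Nat.factorial_pos _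

theorem t3_prod_flatMap {α β M : Type*} [CommMonoid M] (l : List α) (f : α → List β) (g : β → M) :
    ((l.flatMap f).map g).prod = (l.map fun a => ((f a).map g).prod).prod := by
  induction l with
  | nil => simp
  | cons a l ih => simp [ih]

theorem t3_rows_prod (A : List (List Bool)) (D M : ℕ) :
    ((rowsS A D M).map rowP).prod =
      ∏ u ∈ range (nG A), ((tg A D M u).map fun q => rowP (u, q.1 - 1) ^ q.2).prod := by
  unfold rowsS
  rw [prod_flatMap_range]
  refine Finset.prod_congr rfl fun u _ => ?_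
  rw [t3_prod_flatMap]
  congr 1
  refine List.map_congr_left fun q _ => ?_
  rw [List.map_map, prod_const_range _ (rowP ∘ fun _ => (u, q.1 - 1)) (rowP (u, q.1 - 1))
    (fun _ => rfl)]

theorem t3_map_rowP (u v : ℕ) (h : u < v) :
    MvPolynomial.map (Int.castRingHom ℚ) (rowP (u, v - 1)) = ∑ κ ∈ Ico u v, (X κ : MP) := by
  unfold rowP
  rw [map_sum]
  have h1 : Icc u (v - 1) = Ico u v := by
    ext κ
    rw [mem_Icc, mem_Ico]
    omega
  simp only [h1, MvPolynomial.map_X]

theorem t3_map_prod (A : List (List Bool)) (D M : ℕ) :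
    MvPolynomial.map (Int.castRingHom ℚ) ((rowsS A D M).map rowP).prod =
      ∏ u ∈ range (nG A),
        ((tg A D M u).map fun q => (∑ κ ∈ Ico u q.1, (X κ : MP)) ^ q.2).prod := by
  rw [t3_rows_prod, map_prod]
  refine Finset.prod_congr rfl fun u hu => ?_
  rw [map_list_prod, List.map_map]
  congr 1
  refine List.map_congr_left fun q hq => ?_
  simp only [Function.comp]
  rw [map_pow, t3_map_rowP u q.1 (t3_target (mem_range.mp hu) hq).1]

theorem t3_Lz (A : List (List Bool)) (D M : ℕ) (hn : 0 < A.length) (hD2 : D ≤ nK A + 1)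
    (hM : 1 ≤ M) :
    (fun u => (u + 1, -(mc A D M u : ℤ) - 1) :: (tg A D M u).map fun q => (q.1, (q.2 : ℤ))) =
      Lz A D M := by
  funext u
  have a1 := t3_mainA_le (M := M) hn hD2 hM u
  have a2 := t3_colM_le (M := M) hD2 hM u
  unfold Lz tg mc
  rw [Nat.cast_sub (by omega : colM A D u ≤ nC A * M + colP A D u), List.map_cons,
    Nat.cast_sub a1]
  push_cast
  rfl

/-- T3b: the normalised permanents as nested eliminations -/
theorem div_eq_of_genA (hgen : GenA) (A : List (List Bool)) (D M : ℕ) (hn : 0 < A.length)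
    (hdeg : ∀ j < A.length, 1 ≤ degL A j) (hD1 : 1 ≤ D) (hD2 : D ≤ nK A + 1) (hM : 1 ≤ M) :
    ((F (HS A D M) / DS A D M : ℕ) : ℚ) = constantCoeff (run (Lz A D M) 0 (nG A) 1) := by
  have hlen := lengths_eq A D M hn hdeg hD1 hD2 hM
  have h1 : (F (HS A D M) : ℤ) = DS A D M *
      coeff (∑ u ∈ range (nG A), Finsupp.single u (mc A D M u)) (((rowsS A D M).map rowP).prod) := by
    unfold HS
    rw [F_mat _ _ hlen, t3_factorials, t3_cols_sum]
  have h2 : ((F (HS A D M) / DS A D M : ℕ) : ℤ) =
      coeff (∑ u ∈ range (nG A), Finsupp.single u (mc A D M u)) (((rowsS A D M).map rowP).prod) := by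
    have h := t3_DS_pos A D M
    rw [Int.natCast_div, h1, Int.mul_ediv_cancel_left _ (by exact_mod_cast h.ne')]
  have h3 : ((F (HS A D M) / DS A D M : ℕ) : ℚ) =
      (Int.castRingHom ℚ) (coeff (∑ u ∈ range (nG A), Finsupp.single u (mc A D M u))
        (((rowsS A D M).map rowP).prod)) := by
    rw [← h2]
    exact (Int.cast_natCast (R := ℚ) _).symm
  rw [h3, ← MvPolynomial.coeff_map, t3_map_prod,
    hgen (nG A) (tg A D M) (mc A D M) (fun u hu q hq => t3_target hu hq), t3_Lz A D M hn hD2 hM]
  have h4 : ∏ u ∈ range (nG A), (-1 : ℚ) ^ (mc A D M u + ((tg A D M u).map Prod.snd).sum) = 1 := by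
    rw [Finset.prod_pow_eq_pow_sum, Finset.sum_add_distrib, ← t3_rows_length, ← t3_cols_length,
      hlen, ← two_mul, pow_mul]
    norm_num
  rw [h4, one_mul]

end Pool.Agent.H618R2.Skew
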