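import Pool.Agent.H618R2.Skew.Model

/-!
Task T3, first part: shape of the blocks, the matrices are staircases (helper273 for helper618).
-/

namespace Pool.Agent.H618R2.Skew

open MvPolynomial Finset Pool.Agent.H549R2.Convex

theorem t3_mem_edgesE {A : List (List Bool)} {e : ℕ × ℕ} (h : e ∈ edgesE A) :
    e.1 < A.length ∧ A.length ≤ e.2 ∧ e.2 < 2 * A.length := by
  unfold edgesE at h
  rw [List.mem_flatMap] at h
  obtain ⟨i, hi, h⟩ := h
  rw [List.mem_map] at h
  obtain ⟨j, hj, rfl⟩ := h
  rw [List.mem_filter] at hj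
  rw [List.mem_range] at hi
  have := List.mem_range.mp hj.1
  exact ⟨hi, by simp only; omega, by simp only; omega⟩

theorem t3_mem_blocks {A : List (List Bool)} {b : Blk} (h : b ∈ blocks A) :
    1 ≤ b.1 ∧ b.1 + 1 < wd A := by
  unfold blocks at h
  rw [List.mem_flatMap] at h
  obtain ⟨e, he, h⟩ := h
  have h1 := t3_mem_edgesE he
  unfold edgeBlocks at h
  rw [List.mem_map] at h
  obtain ⟨s, hs, rfl⟩ := h
  rw [List.mem_range] at hs
  unfold wd
  simp only
  omega

theorem t3_wd_pos (A : List (List Bool)) : 0 < wd A := by unfold wd; omega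

theorem t3_blk_mem {A : List (List Bool)} {t : ℕ} (h : t < nB A) : blk A t ∈ blocks A := by
  unfold blk
  unfold nB at h
  rw [List.getD_eq_getElem _ _ h]
  exact List.getElem_mem _

theorem t3_blk_final {A : List (List Bool)} {t : ℕ} (h : nB A ≤ t) : blk A t = (0, true, true) := by
  unfold blk
  unfold nB at h
  exact List.getD_eq_default _ _ h

/-- targets of the main rows inside a block -/
theorem t3_ta_lt {A : List (List Bool)} {b : Blk} (h : b ∈ blocks A) (q : ℕ) {i : ℕ}
    (hi : i < wd A) : ta b q i < wd A := by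
  have h1 := t3_mem_blocks h
  unfold ta
  split_ifs <;> omega

theorem t3_ta_mono (b : Blk) (q : ℕ) {i j : ℕ} (hij : i ≤ j) : ta b q i ≤ ta b q j := by
  unfold ta
  split_ifs <;> omega

/-- the largest target of the vertex `u` -/
def t3_hi (A : List (List Bool)) (u : ℕ) : ℕ :=
  if (blk A (u / wd A)).2.2 = false ∧ u % wd A = (blk A (u / wd A)).1 + 1 then
    (u / wd A + 1) * wd A + (blk A (u / wd A)).1 + 1 else mainT A u

theorem t3_mainT_le_hi (A : List (List Bool)) (u : ℕ) : mainT A u ≤ t3_hi A u := by
  unfold t3_hi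
  split_ifs with h
  · unfold mainT
    split_ifs with h2
    · have : ta (blk A (u / wd A)) (blk A (u / wd A + 1)).1 (u % wd A) = (blk A (u / wd A)).1 := by
        unfold ta
        rw [if_neg (by rw [h.1]; decide), if_pos h.2]
      rw [this]
      omega
    · omega
  · exact le_rfl

theorem t3_tg_mem {A : List (List Bool)} {D M u : ℕ} {q : ℕ × ℕ} (h : q ∈ tg A D M u) :
    mainT A u ≤ q.1 ∧ q.1 ≤ t3_hi A u := by
  unfold tg at h
  rw [List.mem_cons] at h
  rcases h with h | h
  · rw [h]
    exact ⟨le_rfl, t3_mainT_le_hi A u⟩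
  · unfold exL at h
    split_ifs at h with hc
    · rw [List.mem_singleton] at h
      have : t3_hi A u = q.1 := by
        unfold t3_hi
        rw [if_pos hc, h]
      rw [← this]
      exact ⟨t3_mainT_le_hi A u, le_rfl⟩
    · simp at h

theorem t3_mainT_lo (A : List (List Bool)) (u : ℕ) : (u / wd A + 1) * wd A ≤ mainT A u := by
  unfold mainT
  split_ifs <;> omega

theorem t3_hi_lt {A : List (List Bool)} {u : ℕ} (hu : u / wd A < nB A) :
    t3_hi A u < (u / wd A + 2) * wd A := by
  have hb := t3_blk_mem hu
  have h1 := t3_mem_blocks hb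
  have h2 : (u / wd A + 2) * wd A = (u / wd A + 1) * wd A + wd A := by ring
  have h3 : u % wd A < wd A := Nat.mod_lt _ (t3_wd_pos A)
  unfold t3_hi
  split_ifs with h
  · omega
  · unfold mainT
    rw [if_pos hu]
    have := t3_ta_lt hb (blk A (u / wd A + 1)).1 h3
    omega

theorem t3_hi_final {A : List (List Bool)} {u : ℕ} (hu : nB A ≤ u / wd A) :
    t3_hi A u = (u / wd A + 1) * wd A := by
  unfold t3_hi
  rw [t3_blk_final hu]
  rw [if_neg (by simp)]
  unfold mainT
  rw [if_neg (by omega)]

theorem t3_div_le {A : List (List Bool)} {u : ℕ} (hu : u < nG A) : u / wd A ≤ nB A := by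
  unfold nG at hu
  have := Nat.div_lt_of_lt_mul (by rwa [mul_comm] at hu : u < wd A * (nB A + 1))
  omega

/-- bounds for the targets, needed for the nested elimination -/
theorem t3_target {A : List (List Bool)} {D M u : ℕ} (hu : u < nG A) {q : ℕ × ℕ}
    (h : q ∈ tg A D M u) : u < q.1 ∧ q.1 ≤ nG A := by
  have h1 := t3_tg_mem h
  have h2 := t3_mainT_lo A u
  have h3 : u < (u / wd A + 1) * wd A := by
    have := Nat.lt_div_mul_add (t3_wd_pos A) (a := u)
    have h5 : (u / wd A + 1) * wd A = u / wd A * wd A + wd A := by ring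
    omega
  refine ⟨by omega, ?_⟩
  have h4 := t3_div_le hu
  rcases lt_or_ge (u / wd A) (nB A) with h5 | h5
  · have h6 := t3_hi_lt h5
    have h7 : (u / wd A + 2) * wd A ≤ nG A := by
      unfold nG
      exact Nat.mul_le_mul_right _ (by omega)
    omega
  · have h6 := t3_hi_final h5
    have h7 : u / wd A = nB A := le_antisymm h4 h5
    rw [h6, h7] at h1
    unfold nG
    exact h1.2

/-- the targets of different vertices are ordered -/
theorem t3_target_mono {A : List (List Bool)} {u v : ℕ} (hu : u < v) (hv : v < nG A) :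
    t3_hi A u ≤ mainT A v := by
  have h0 : u / wd A ≤ v / wd A := Nat.div_le_div_right hu.le
  have hv4 := t3_div_le hv
  rcases h0.lt_or_eq with h | h
  · have h1 := t3_hi_lt (A := A) (u := u) (by omega)
    have h2 := t3_mainT_lo A v
    have h3 : (u / wd A + 2) * wd A ≤ (v / wd A + 1) * wd A := Nat.mul_le_mul_right _ (by omega)
    omega
  · rcases lt_or_ge (u / wd A) (nB A) with h5 | h5
    · have hm : u % wd A < v % wd A := by
        have e1 := Nat.div_add_mod u (wd A)
        have e2 := Nat.div_add_mod v (wd A)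
        rw [← h] at e2
        omega
      have hb := t3_mem_blocks (t3_blk_mem h5)
      unfold t3_hi mainT
      rw [← h]
      simp only [if_pos h5]
      split_ifs with hc
      · have : (blk A (u / wd A)).1 + 1 < ta (blk A (u / wd A)) (blk A (u / wd A + 1)).1 (v % wd A) := by
          unfold ta
          rw [if_neg (by rw [hc.1]; decide)]
          split_ifs <;> omega
        omega
      · have := t3_ta_mono (blk A (u / wd A)) (blk A (u / wd A + 1)).1 hm.le
        omega
    · rw [t3_hi_final h5, h]
      exact t3_mainT_lo A v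

theorem t3_rows_sorted (A : List (List Bool)) (D M : ℕ) :
    (rowsS A D M).Pairwise (fun r r' => r.1 ≤ r'.1 ∧ r.2 ≤ r'.2) := by
  unfold rowsS
  rw [List.pairwise_flatMap]
  constructor
  · intro u hu
    rw [List.pairwise_flatMap]
    constructor
    · intro q _
      rw [List.pairwise_map]
      exact List.Pairwise.imp (fun _ => ⟨le_rfl, le_rfl⟩) (List.pairwise_lt_range (n := q.2))
    · unfold tg exL
      split_ifs with hc
      · rw [List.pairwise_cons]
        refine ⟨?_, List.pairwise_singleton _ _⟩
        intro q hq x hx y hy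
        rw [List.mem_singleton] at hq
        rw [List.mem_map] at hx hy
        obtain ⟨_, _, rfl⟩ := hx
        obtain ⟨_, _, rfl⟩ := hy
        have h1 := t3_mainT_le_hi A u
        unfold t3_hi at h1
        rw [if_pos hc] at h1
        rw [hq]
        simp only
        omega
      · exact List.pairwise_singleton _ _
  · refine List.Pairwise.imp_of_mem ?_ (List.pairwise_lt_range (n := nG A))
    intro u v _ hv huv x hx y hy
    rw [List.mem_range] at hv
    rw [List.mem_flatMap] at hx hy
    obtain ⟨q, hq, hx⟩ := hx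
    obtain ⟨q', hq', hy⟩ := hy
    rw [List.mem_map] at hx hy
    obtain ⟨_, _, rfl⟩ := hx
    obtain ⟨_, _, rfl⟩ := hy
    have h1 := t3_tg_mem hq
    have h2 := t3_tg_mem hq'
    have h3 := t3_target_mono huv hv
    simp only
    omega

theorem t3_cols_sorted (A : List (List Bool)) (D M : ℕ) :
    (colsS A D M).Pairwise (fun x y => x ≤ y) := by
  unfold colsS
  rw [List.pairwise_flatMap]
  constructor
  · intro u _
    rw [List.pairwise_map]
    exact List.Pairwise.imp (fun _ => le_rfl) (List.pairwise_lt_range (n := mc A D M u))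
  · refine List.Pairwise.imp_of_mem ?_ (List.pairwise_lt_range (n := nG A))
    intro u v _ _ huv x hx y hy
    rw [List.mem_map] at hx hy
    obtain ⟨_, _, rfl⟩ := hx
    obtain ⟨_, _, rfl⟩ := hy
    exact huv.le

theorem t3_ent_mat (RS : List (ℕ × ℕ)) (CL : List ℕ) (i j : ℕ) :
    ent (mat RS CL) i j = true ↔ ∃ (hi : i < RS.length) (hj : j < CL.length),
      RS[i].1 ≤ CL[j] ∧ CL[j] ≤ RS[i].2 := by
  rcases lt_or_ge i RS.length with hi | hi
  · have h1 : (mat RS CL).getD i [] = CL.map (fun κ => decide (RS[i].1 ≤ κ) &&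
        decide (κ ≤ RS[i].2)) := by
      rw [mat, List.getD_eq_getElem _ _ (by simpa using hi), List.getElem_map]
    rw [ent, h1]
    rcases lt_or_ge j CL.length with hj | hj
    · rw [List.getD_eq_getElem _ _ (by simpa using hj), List.getElem_map]
      simp [hi, hj]
    · rw [List.getD_eq_default _ _ (by simpa using hj)]
      simp only [Bool.false_eq_true, false_iff]
      rintro ⟨_, h, _⟩
      omega
  · have h1 : (mat RS CL).getD i [] = [] := by
      rw [mat, List.getD_eq_default _ _ (by simpa using hi)]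
    rw [ent, h1, List.getD_nil]
    simp only [Bool.false_eq_true, false_iff]
    rintro ⟨h, _⟩
    omega

/-- T3c -/
theorem HS_staircase (A : List (List Bool)) (D M : ℕ) : Staircase (HS A D M) := by
  intro i p i' j q j' hip hpi hjq hqj h1 h2
  unfold HS at h1 h2 ⊢
  rw [t3_ent_mat] at h1 h2 ⊢
  obtain ⟨hi, hj, a1, a2⟩ := h1
  obtain ⟨hi', hj', b1, b2⟩ := h2
  have hp : p < (rowsS A D M).length := lt_of_le_of_lt hpi hi'
  have hq : q < (colsS A D M).length := lt_of_le_of_lt hqj hj
  refine ⟨hp, hq, ?_, ?_⟩
  · have c1 : (rowsS A D M)[p].1 ≤ (rowsS A D M)[i'].1 := by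
      rcases hpi.eq_or_lt with h | h
      · subst h; exact le_rfl
      · exact (List.pairwise_iff_getElem.1 (t3_rows_sorted A D M) p i' hp hi' h).1
    have c2 : (colsS A D M)[j'] ≤ (colsS A D M)[q] := by
      rcases hjq.eq_or_lt with h | h
      · subst h; exact le_rfl
      · exact List.pairwise_iff_getElem.1 (t3_cols_sorted A D M) j' q hj' hq h
    omega
  · have c1 : (rowsS A D M)[i].2 ≤ (rowsS A D M)[p].2 := by
      rcases hip.eq_or_lt with h | h
      · subst h; exact le_rfl
      · exact (List.pairwise_iff_getElem.1 (t3_rows_sorted A D M) i p hi hp h).2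
    have c2 : (colsS A D M)[q] ≤ (colsS A D M)[j] := by
      rcases hqj.eq_or_lt with h | h
      · subst h; exact le_rfl
      · exact List.pairwise_iff_getElem.1 (t3_cols_sorted A D M) q j hq hj h
    omega

end Pool.Agent.H618R2.Skew
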